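import Pool.Agent.Lib.MP_df705a_gt.Fib.Defs
import Pool.Agent.Lib.MP_df705a_gt.Fib.FibredDefs
import Pool.Agent.Lib.MP_df705a_gt.Fib.SubChart

/-!
# Collapse of fibre bundles: definitions
-/

open scoped Manifold ContDiff Topology
open Set Bundle Module Filter MeasureTheory

noncomputable section

namespace Pool.Agent.Lib.MP_df705a_gt.Coll

open Pool.Agent.Lib.MP_df705a_gt.Twist Pool.Agent.Lib.MP_df705a_gt.Perm
open Pool.Agent.Lib.MP_df705a_gt.Sub (mB expn)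
open Pool.Agent.Lib.MP_df705a_gt.Circ (Horizontal Submersion cf Para)
open Pool.Agent.Lib.MP_df705a_gt.Fib (RiemSub Biconformal)

/-- The smooth Riemannian metrics on the manifold `M` modelled on `E`. -/
abbrev Met (E : Type*) [NormedAddCommGroup E] [NormedSpace ℝ E] (M : Type*) [TopologicalSpace M]
    [ChartedSpace E M] [IsManifold 𝓘(ℝ, E) ∞ M] :=
  ContMDiffRiemannianMetric 𝓘(ℝ, E) ∞ E (fun x : M => TangentSpace 𝓘(ℝ, E) x)

section coordinates

variable {E : Type*} [NormedAddCommGroup E] [NormedSpace ℝ E] [FiniteDimensional ℝ E]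

/-- The Ricci curvature `∑ h^{il} R_{ijkl}`. -/
def ric (h : Curv.Coeff E) (x : E) : Matrix (Fin (finrank ℝ E)) (Fin (finrank ℝ E)) ℝ :=
  fun j k => ∑ i, ∑ l, (h x)⁻¹ i l * Curv.riemann h i j k l x

/-- The trace of the matrix `S` with respect to the scalar product with the matrix `A`. -/
def trM {n : ℕ} (A S : Matrix (Fin n) (Fin n) ℝ) : ℝ := ∑ i, ∑ j, A⁻¹ i j * S i j

/-- The scalar product of the matrices `S` and `T` for the scalar product with the matrix `A`. -/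
def ipM {n : ℕ} (A S T : Matrix (Fin n) (Fin n) ℝ) : ℝ :=
  ∑ i, ∑ j, ∑ a, ∑ b, A⁻¹ i a * A⁻¹ j b * (S i j * T a b)

theorem riem_congr {h h' : Curv.Coeff E} {x : E} (hh : h =ᶠ[𝓝 x] h')
    (i j k l : Fin (finrank ℝ E)) : Curv.riemann h i j k l x = Curv.riemann h' i j k l x := by
  have h1 : ∀ i j k, Curv.christoffel h i j k =ᶠ[𝓝 x] Curv.christoffel h' i j k := by
    intro i j k
    filter_upwards [hh.eventuallyEq_nhds] with y hy
    exact christoffel_congr hy i j k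
  unfold Curv.riemann Curv.pd
  rw [(h1 j k l).fderiv_eq, (h1 i k l).fderiv_eq, hh.self_of_nhds]
  simp only [christoffel_congr hh]

theorem ric_congr {h h' : Curv.Coeff E} {x : E} (hh : h =ᶠ[𝓝 x] h') : ric h x = ric h' x := by
  unfold ric
  rw [hh.self_of_nhds]
  simp only [riem_congr hh]

end coordinates

section manifold

variable {E : Type*} [NormedAddCommGroup E] [NormedSpace ℝ E] [FiniteDimensional ℝ E]
  {M : Type*} [TopologicalSpace M] [ChartedSpace E M] [IsManifold 𝓘(ℝ, E) ∞ M]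

/-- The matrix of the metric at `y`, in the preferred chart at `y`. -/
def cof (h : Met E M) (y : M) : Matrix (Fin (finrank ℝ E)) (Fin (finrank ℝ E)) ℝ :=
  coeff h y (extChartAt 𝓘(ℝ, E) y y)

/-- The partial derivative of the function `u` at `y`, in the preferred chart at `y`. -/
def pdv (E : Type*) [NormedAddCommGroup E] [NormedSpace ℝ E] [FiniteDimensional ℝ E]
    {M : Type*} [TopologicalSpace M] [ChartedSpace E M] (u : M → ℝ) (y : M) (i : Fin (finrank ℝ E)) : ℝ :=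
  Curv.pd i (rd E y u) (extChartAt 𝓘(ℝ, E) y y)

/-- The symmetric product of the differentials of `u` and `v` at `y`, in the preferred chart. -/
def dd (E : Type*) [NormedAddCommGroup E] [NormedSpace ℝ E] [FiniteDimensional ℝ E]
    {M : Type*} [TopologicalSpace M] [ChartedSpace E M] (u v : M → ℝ) (y : M) :
    Matrix (Fin (finrank ℝ E)) (Fin (finrank ℝ E)) ℝ :=
  fun i j => (pdv E u y i * pdv E v y j + pdv E u y j * pdv E v y i) / 2

/-- The covariant Hessian of `u` at `y`, in the preferred chart. -/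
def hs (h : Met E M) (u : M → ℝ) (y : M) : Matrix (Fin (finrank ℝ E)) (Fin (finrank ℝ E)) ℝ :=
  Curv.covHess (coeff h y) (rd E y u) (extChartAt 𝓘(ℝ, E) y y)

/-- The Ricci curvature `Ric (∇ u, ∇ v)` at `y`. -/
def Rc (h : Met E M) (u v : M → ℝ) (y : M) : ℝ :=
  ipM (cof h y) (ric (coeff h y) (extChartAt 𝓘(ℝ, E) y y)) (dd E u v y)

/-- The linearization of the scalar curvature at `h` in the direction `dw ⊗ dw`. -/
def DS (h : Met E M) (w : M → ℝ) (y : M) : ℝ :=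
  Lap h w y ^ 2 + Grd h w (Lap h w) y - (1 / 2) * Lap h (Grd h w w) y - Rc h w w y

/-- The gradient of `f` at `x`, in the preferred chart. -/
def gv (g : Met E M) (f : M → ℝ) (x : M) : E :=
  gradM (finBasis ℝ E) (cof g x) (fderiv ℝ (rd E x f) (extChartAt 𝓘(ℝ, E) x x))

/-- The functions `f i` are normal coordinates at `x`, to the order which is needed for traces of
covariant derivatives. -/
structure NormalAt (g : Met E M) (x : M) (f : Fin (finrank ℝ E) → M → ℝ) : Prop where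
  sm : ∀ i, Sm E (f i)
  lap : ∀ i, Lap g (f i) x = 0
  sq : ∀ W : E → ℝ, ContDiffAt ℝ ∞ W (extChartAt 𝓘(ℝ, E) x x) →
    ∑ i, gradC (coeff g x) W (rd E x (f i)) (extChartAt 𝓘(ℝ, E) x x) ^ 2 =
      gradC (coeff g x) W W (extChartAt 𝓘(ℝ, E) x x)
  trc : ∀ W : E → ℝ, ContDiffAt ℝ ∞ W (extChartAt 𝓘(ℝ, E) x x) →
    ∑ i, gradC (coeff g x) (gradC (coeff g x) W (rd E x (f i))) (rd E x (f i))
      (extChartAt 𝓘(ℝ, E) x x) = lapC (coeff g x) W (extChartAt 𝓘(ℝ, E) x x)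

/-- `μ` is the Riemannian measure of `g`. -/
structure IsRVol [MeasurableSpace E] [BorelSpace E] [MeasurableSpace M] [BorelSpace M]
    (g : Met E M) (μ : Measure M) : Prop where
  fin : IsFiniteMeasure μ
  chart : ∀ (z : M) (f : M → ℝ), Continuous f → tsupport f ⊆ (extChartAt 𝓘(ℝ, E) z).source →
    ∫ p, f p ∂μ = ∫ y in (extChartAt 𝓘(ℝ, E) z).target,
      f ((extChartAt 𝓘(ℝ, E) z).symm y) * √ (coeff g z y).det ∂(finBasis ℝ E).addHaar

end manifold

section bundle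

variable {E₁ : Type*} [NormedAddCommGroup E₁] [NormedSpace ℝ E₁] [FiniteDimensional ℝ E₁]
  {B : Type*} [TopologicalSpace B] [ChartedSpace E₁ B] [IsManifold 𝓘(ℝ, E₁) ∞ B]
  {E₂ : Type*} [NormedAddCommGroup E₂] [NormedSpace ℝ E₂] [FiniteDimensional ℝ E₂]
  {F : Type*} [TopologicalSpace F] [ChartedSpace E₂ F] [IsManifold 𝓘(ℝ, E₂) ∞ F]
  {E : Type*} [NormedAddCommGroup E] [NormedSpace ℝ E] [FiniteDimensional ℝ E]
  {M : Type*} [TopologicalSpace M] [ChartedSpace E M] [IsManifold 𝓘(ℝ, E) ∞ M]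

/-- `Φ` is smooth on `U × F`. -/
abbrev SmoothOver (E E₁ E₂ : Type*) [NormedAddCommGroup E] [NormedSpace ℝ E]
    [NormedAddCommGroup E₁] [NormedSpace ℝ E₁] [NormedAddCommGroup E₂] [NormedSpace ℝ E₂]
    {B : Type*} [TopologicalSpace B] [ChartedSpace E₁ B] {F : Type*} [TopologicalSpace F]
    [ChartedSpace E₂ F] {M : Type*} [TopologicalSpace M] [ChartedSpace E M]
    (U : Set B) (Φ : B × F → M) : Prop :=
  ContMDiffOn (𝓘(ℝ, E₁).prod 𝓘(ℝ, E₂)) 𝓘(ℝ, E) ∞ Φ (U ×ˢ univ)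

/-- The differential of `Φ` is bijective at the points of `U × F`. -/
abbrev BijOver (E E₁ E₂ : Type*) [NormedAddCommGroup E] [NormedSpace ℝ E]
    [NormedAddCommGroup E₁] [NormedSpace ℝ E₁] [NormedAddCommGroup E₂] [NormedSpace ℝ E₂]
    {B : Type*} [TopologicalSpace B] [ChartedSpace E₁ B] {F : Type*} [TopologicalSpace F]
    [ChartedSpace E₂ F] {M : Type*} [TopologicalSpace M] [ChartedSpace E M]
    (U : Set B) (Φ : B × F → M) : Prop :=
  ∀ x ∈ U, ∀ y : F,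
    Function.Bijective (mfderiv (𝓘(ℝ, E₁).prod 𝓘(ℝ, E₂)) 𝓘(ℝ, E) Φ (x, y))

/-- `Φ : U × F → pr⁻¹ U` is a diffeomorphism over the open set `U` of `B`. -/
structure Triv (E E₁ E₂ : Type*) [NormedAddCommGroup E] [NormedSpace ℝ E]
    [NormedAddCommGroup E₁] [NormedSpace ℝ E₁] [NormedAddCommGroup E₂] [NormedSpace ℝ E₂]
    {B : Type*} [TopologicalSpace B] [ChartedSpace E₁ B] {F : Type*} [TopologicalSpace F]
    [ChartedSpace E₂ F] {M : Type*} [TopologicalSpace M] [ChartedSpace E M]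
    (pr : M → B) (U : Set B) (Φ : B × F → M) : Prop where
  isOpen : IsOpen U
  smooth : SmoothOver E E₁ E₂ U Φ
  bij : BijOver E E₁ E₂ U Φ
  proj : ∀ x ∈ U, ∀ y : F, pr (Φ (x, y)) = x
  inj : ∀ x ∈ U, ∀ y y' : F, Φ (x, y) = Φ (x, y') → y = y'
  surj : ∀ p : M, pr p ∈ U → ∃ y : F, Φ (pr p, y) = p

/-- `pr : M → B` is a smooth fibre bundle with fibre `F`: a submersion which is locally, over small
open sets `U` of `B`, diffeomorphic to the projection `U × F → U`. -/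
def IsFibreBundle (E E₁ E₂ : Type*) [NormedAddCommGroup E] [NormedSpace ℝ E]
    [NormedAddCommGroup E₁] [NormedSpace ℝ E₁] [NormedAddCommGroup E₂] [NormedSpace ℝ E₂]
    {B : Type*} [TopologicalSpace B] [ChartedSpace E₁ B] (F : Type*) [TopologicalSpace F]
    [ChartedSpace E₂ F] {M : Type*} [TopologicalSpace M] [ChartedSpace E M]
    (pr : M → B) : Prop :=
  Submersion E E₁ pr ∧ ∀ x : B, ∃ (U : Set B) (Φ : B × F → M), x ∈ U ∧ Triv E E₁ E₂ pr U Φ

/-- The fibres of `pr`, with the metrics induced by `g`, are Einstein manifolds with nonpositive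
Einstein constants: in every smooth local parametrization `σ` of the fibre over `b` by the vector
space `E₂`, the Ricci curvature of the pullback of `g` is `lam` times the pullback of `g`. -/
def EinsteinFibres (E₂ : Type*) [NormedAddCommGroup E₂] [NormedSpace ℝ E₂]
    [FiniteDimensional ℝ E₂] (g : Met E M) (pr : M → B) : Prop :=
  ∀ b : B, ∃ lam : ℝ, lam ≤ 0 ∧ ∀ (σ : E₂ → M) (y : E₂), ContMDiffAt 𝓘(ℝ, E₂) 𝓘(ℝ, E) ∞ σ y →
    Function.Injective (mfderiv 𝓘(ℝ, E₂) 𝓘(ℝ, E) σ y) → (∀ᶠ y' in 𝓝 y, pr (σ y') = b) →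
    ric (cf g σ) y = lam • cf g σ y

/-- The parametrization of `M` by `E₁ × E₂` given by the trivialization `Φ` and the charts at `x₀`
and `y₀`. -/
def psi (E₁ E₂ : Type*) [NormedAddCommGroup E₁] [NormedSpace ℝ E₁] [NormedAddCommGroup E₂]
    [NormedSpace ℝ E₂] {B : Type*} [TopologicalSpace B] [ChartedSpace E₁ B] {F : Type*}
    [TopologicalSpace F] [ChartedSpace E₂ F] {M : Type*} (Φ : B × F → M) (x₀ : B) (y₀ : F)
    (q : E₁ × E₂) : M :=
  Φ ((extChartAt 𝓘(ℝ, E₁) x₀).symm q.1, (extChartAt 𝓘(ℝ, E₂) y₀).symm q.2)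

/-- The point of `E₁ × E₂` which corresponds to `(x, y)`, in the charts at `x₀` and `y₀`. -/
def pt (E₁ E₂ : Type*) [NormedAddCommGroup E₁] [NormedSpace ℝ E₁] [NormedAddCommGroup E₂]
    [NormedSpace ℝ E₂] {B : Type*} [TopologicalSpace B] [ChartedSpace E₁ B] {F : Type*}
    [TopologicalSpace F] [ChartedSpace E₂ F] (x₀ : B) (y₀ : F) (x : B) (y : F) : E₁ × E₂ :=
  (extChartAt 𝓘(ℝ, E₁) x₀ x, extChartAt 𝓘(ℝ, E₂) y₀ y)

/-- The metric `h` on `F` is the pullback of `g` by `y ↦ Φ (x, y)`. -/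
def IsFib (g : Met E M) (Φ : B × F → M) (x : B) (h : Met E₂ F) : Prop :=
  ∀ (y : F) (v w : TangentSpace 𝓘(ℝ, E₂) y), h.inner y v w =
    g.inner (Φ (x, y)) (mfderiv 𝓘(ℝ, E₂) 𝓘(ℝ, E) (fun y => Φ (x, y)) y v)
      (mfderiv 𝓘(ℝ, E₂) 𝓘(ℝ, E) (fun y => Φ (x, y)) y w)

/-- The Lie derivative of the metric `f` of the fibres in the direction of the horizontal lift
`X = (v, Γ v)` of `v`: `X f_ij + f_kj ∂_i (Γ v)^k + f_ik ∂_j (Γ v)^k`. -/
def LD (f : E₁ × E₂ → Matrix (Fin (finrank ℝ E₂)) (Fin (finrank ℝ E₂)) ℝ)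
    (Γ : E₁ × E₂ → E₁ →L[ℝ] E₂) (q : E₁ × E₂) (v : E₁) :
    Matrix (Fin (finrank ℝ E₂)) (Fin (finrank ℝ E₂)) ℝ := fun i j =>
  fderiv ℝ (fun p => f p i j) q (v, Γ q v) +
    (∑ k, f q k j * (finBasis ℝ E₂).repr (fderiv ℝ Γ q (0, finBasis ℝ E₂ i) v) k +
    ∑ k, f q i k * (finBasis ℝ E₂).repr (fderiv ℝ Γ q (0, finBasis ℝ E₂ j) v) k)

/-- The Gram matrix of the horizontal lifts of the basis vectors of `E₁`. -/
def hm (g : Met E M) (σ : E₁ × E₂ → M) (q : E₁ × E₂) :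
    Matrix (Fin (finrank ℝ E₁)) (Fin (finrank ℝ E₁)) ℝ := fun i j =>
  Fib.gσ g σ q (finBasis ℝ E₁ i, Fib.gam g σ q (finBasis ℝ E₁ i))
    (finBasis ℝ E₁ j, Fib.gam g σ q (finBasis ℝ E₁ j))

/-- The horizontal volume form of `g` is the pullback of the volume form of `gB`. -/
def HorVol (E₂ : Type*) [NormedAddCommGroup E₂] [NormedSpace ℝ E₂] [FiniteDimensional ℝ E₂]
    (g : Met E M) (gB : Met E₁ B) (pr : M → B) : Prop :=
  ∀ (σ : E₁ × E₂ → M) (q : E₁ × E₂) (z : B), Fib.AC E pr σ q z →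
    (hm g σ q).det = (coeff gB z q.1).det

/-- `Δ_g (f ∘ pr) - (Δ f) ∘ pr`. -/
def NN (g : Met E M) (gB : Met E₁ B) (pr : M → B) (f : B → ℝ) (p : M) : ℝ :=
  Lap g (fun p => f (pr p)) p - Lap gB f (pr p)

/-- Integration over the fibres, for the measures `μM` and `μB` of `g` and `gB`. -/
structure FibInt (E₁ : Type*) [NormedAddCommGroup E₁] [NormedSpace ℝ E₁]
    {B : Type*} [TopologicalSpace B] [ChartedSpace E₁ B]
    (E₂ : Type*) [NormedAddCommGroup E₂] [NormedSpace ℝ E₂] [FiniteDimensional ℝ E₂]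
    (F : Type*) [TopologicalSpace F] [ChartedSpace E₂ F] [IsManifold 𝓘(ℝ, E₂) ∞ F]
    [MeasurableSpace E₂] [BorelSpace E₂] [MeasurableSpace F] [BorelSpace F]
    [MeasurableSpace M] [MeasurableSpace B]
    (g : Met E M) (pr : M → B) (μM : Measure M) (μB : Measure B)
    (I : (M → ℝ) → B → ℝ) : Prop where
  sm : ∀ K : M → ℝ, Sm E K → Sm E₁ (I K)
  fub : ∀ (χ : B → ℝ) (K : M → ℝ), Continuous χ → Sm E K →
    ∫ p, χ (pr p) * K p ∂μM = ∫ x, χ x * I K x ∂μB
  loc : ∀ (U : Set B) (Φ : B × F → M), Triv E E₁ E₂ pr U Φ → ∀ x ∈ U, ∀ (h : Met E₂ F)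
    (ν : Measure F), IsFib g Φ x h → IsRVol h ν → ∀ K : M → ℝ, Sm E K →
      I K x = ∫ y, K (Φ (x, y)) ∂ν

end bundle

end Pool.Agent.Lib.MP_df705a_gt.Coll
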