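import Pool.Agent.Lib.MP_df705a_gt.Coll.Defs

/-!
# Ricci flat fibres
-/

open scoped Manifold ContDiff Topology
open Bundle Module Filter

noncomputable section

namespace Pool.Agent.Lib.MP_df705a_gt.Coll

open Pool.Agent.Lib.MP_df705a_gt.Twist Pool.Agent.Lib.MP_df705a_gt.Perm
open Pool.Agent.Lib.MP_df705a_gt.Circ (cf)

variable {B : Type*} {E : Type*} [NormedAddCommGroup E] [NormedSpace ℝ E] [FiniteDimensional ℝ E]
  {M : Type*} [TopologicalSpace M] [ChartedSpace E M] [IsManifold 𝓘(ℝ, E) ∞ M]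

/-- The fibres of `pr`, with the metrics induced by `g`, are Ricci flat: for every smooth local
parametrization `σ` of a fibre by the vector space `E₂`, the Ricci curvature of the pullback of `g`
is zero. -/
def RicciFlatFibres (E₂ : Type*) [NormedAddCommGroup E₂] [NormedSpace ℝ E₂]
    [FiniteDimensional ℝ E₂] (g : Met E M) (pr : M → B) : Prop :=
  ∀ (σ : E₂ → M) (y : E₂), ContMDiffAt 𝓘(ℝ, E₂) 𝓘(ℝ, E) ∞ σ y →
    Function.Injective (mfderiv 𝓘(ℝ, E₂) 𝓘(ℝ, E) σ y) → (∀ᶠ y' in 𝓝 y, pr (σ y') = pr (σ y)) →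
    ric (cf g σ) y = 0

end Pool.Agent.Lib.MP_df705a_gt.Coll
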