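import Pool.Agent.Lib.MP_df705a_gt.Coll.IY
import Pool.Agent.Lib.MP_df705a_gt.Coll.E.IntScal
import Pool.Agent.Lib.MP_df705a_gt.Coll.E.KeyInt
import Pool.Agent.Lib.MP_df705a_gt.Coll.E.ConfEin

/-!
# Einstein fibres
-/
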