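import Pool.Agent.Lib.MP_df705a_gt.Coll.IR
import Pool.Agent.Lib.MP_df705a_gt.Mg.G011
import Pool.Agent.Lib.MP_df705a_gt.Coll.Q.LapLt
import Pool.Agent.Lib.MP_df705a_gt.Coll.Q.Dense

/-!
# The inequality of Poincare and the range of the Laplacian
-/
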