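import Pool.Agent.Lib.MP_df705a_gt.Coll.IZ
import Pool.Agent.Lib.MP_df705a_gt.Coll.R.Main

/-!
# The Riemannian measure
-/
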