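import Pool.Agent.Lib.MP_df705a_gt.Coll.IQ
import Pool.Agent.Lib.MP_df705a_gt.Coll.T.Main
import Pool.Agent.Lib.MP_df705a_gt.Coll.T.Cont

/-!
# Variation of the scalar curvature and the inequality of DeWitt and York
-/
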