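import Pool.Agent.Lib.MP_df705a_gt.Coll.IT
import Pool.Agent.Lib.MP_df705a_gt.Coll.X.SmScal
import Pool.Agent.Lib.MP_df705a_gt.Coll.X.NormalFun
import Pool.Agent.Lib.MP_df705a_gt.Coll.X.HorVol
import Pool.Agent.Lib.MP_df705a_gt.Coll.X.Psi
import Pool.Agent.Lib.MP_df705a_gt.Coll.X.FibInt
import Pool.Agent.Lib.MP_df705a_gt.Coll.X.Star
import Pool.Agent.Lib.MP_df705a_gt.Coll.X.Oneill
import Pool.Agent.Lib.MP_df705a_gt.Coll.X.TrLD
import Pool.Agent.Lib.MP_df705a_gt.Coll.X.RepLD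

/-!
# Fibre bundles: integration over the fibres and the formula of O Neill
-/
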