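import Pool.Agent.Lib.MP_df705a_gt.Coll.IX
import Pool.Agent.Lib.MP_df705a_gt.Coll.Y.Main

/-!
# Rigidity and the limit of the collapse
-/
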