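import Pool.Agent.Lib.MP_df705a_gt.Coll.Defs
import Pool.Agent.Lib.MP_df705a_gt.Mg.G011
import Pool.Agent.Lib.MP_df705a_gt.Coll.Z.IsFib
import Pool.Agent.Lib.MP_df705a_gt.Coll.Z.FibParam
import Pool.Agent.Lib.MP_df705a_gt.Coll.Z.Biconf
import Pool.Agent.Lib.MP_df705a_gt.Coll.Z.HorConf

/-!
# Metrics, collapsed metrics and parametrizations of the fibres
-/
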