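import Pool.Agent.Lib.MP_df705a_gt.Coll.IE
import Pool.Agent.Lib.MP_df705a_gt.Coll.Flat

/-!
# Collapse of fibre bundles
-/

open scoped Manifold ContDiff Topology
open Set Bundle Module Filter MeasureTheory

noncomputable section

namespace Pool.Agent.Lib.MP_df705a_gt.Coll

open Pool.Agent.Lib.MP_df705a_gt.Twist Pool.Agent.Lib.MP_df705a_gt.Perm
open Pool.Agent.Lib.MP_df705a_gt.Circ (Horizontal Submersion cf Para HorConf)
open Pool.Agent.Lib.MP_df705a_gt.Fib (RiemSub Biconformal)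

variable {E₁ : Type*} [NormedAddCommGroup E₁] [NormedSpace ℝ E₁] [FiniteDimensional ℝ E₁]
  {B : Type*} [TopologicalSpace B] [ChartedSpace E₁ B] [IsManifold 𝓘(ℝ, E₁) ∞ B]
  {E₂ : Type*} [NormedAddCommGroup E₂] [NormedSpace ℝ E₂] [FiniteDimensional ℝ E₂]
  {F : Type*} [TopologicalSpace F] [ChartedSpace E₂ F] [IsManifold 𝓘(ℝ, E₂) ∞ F]
  {E : Type*} [NormedAddCommGroup E] [NormedSpace ℝ E] [FiniteDimensional ℝ E]
  {M : Type*} [TopologicalSpace M] [ChartedSpace E M] [IsManifold 𝓘(ℝ, E) ∞ M]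

/-- One-dimensional fibres. -/
theorem conf_line [CompactSpace M] [T2Space M] [CompactSpace B] [T2Space B]
    [ConnectedSpace B] [Nonempty M] (hd : finrank ℝ E = finrank ℝ E₁ + 1)
    (hd₁ : 0 < finrank ℝ E₁) {pr : M → B} (hpr : Submersion E E₁ pr)
    {g : Met E M} {gB : Met E₁ B} (hH : HorConf g gB pr) (hc : ConfPSC g) : ConfPSC gB := by
  obtain ⟨ψ, g', hψ, hc, hpos⟩ := hc
  exact Circ.conf_of_horConf hd hd₁ g' gB hpr (horConf_of_conf hH hc) hpos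

/-- There is no metric of positive scalar curvature in dimension one. -/
theorem not_conf_one [Nonempty B] (hd₁ : finrank ℝ E₁ = 1) (gB : Met E₁ B) : ¬ ConfPSC gB := by
  rintro ⟨ψ, g', -, -, h⟩
  obtain ⟨x⟩ := (inferInstance : Nonempty B)
  have h1 := h x (extChartAt 𝓘(ℝ, E₁) x x) (mem_extChartAt_target x)
  have h2 := ConfEinAux.scal_dim_one hd₁ g' x
  unfold Scal at h2
  exact absurd h1 (by rw [h2]; exact lt_irrefl 0)

theorem ric_dim_one (hd : finrank ℝ E = 1) (h : Curv.Coeff E) (x : E) : ric h x = 0 := by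
  ext j k
  have : Subsingleton (Fin (finrank ℝ E)) := by rw [hd]; infer_instance
  unfold ric
  refine Finset.sum_eq_zero fun i _ => Finset.sum_eq_zero fun l _ => ?_
  rw [Subsingleton.elim j i, ConfEinAux.riem_self, mul_zero]

/-- The metric whose collapse stays conformal to positive scalar curvature is conformal to the
metric of a Riemannian submersion with Ricci flat fibres. -/
theorem exists_limit [CompactSpace M] [T2Space M] [CompactSpace B] [T2Space B]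
    [CompactSpace F] [T2Space F] [ConnectedSpace F] [Nonempty M]
    (hd : finrank ℝ E = finrank ℝ E₁ + finrank ℝ E₂) (hd₁ : 0 < finrank ℝ E₁)
    (hd₂ : 0 < finrank ℝ E₂) (hn : 3 ≤ finrank ℝ E)
    (hF : ∀ h : Met E₂ F, ¬ PosScal h)
    {pr : M → B} (hpr : IsFibreBundle E E₁ E₂ F pr) {g : Met E M}
    (hseq : ∀ ε₀ : ℝ, 0 < ε₀ → ∃ (ε : ℝ) (g' : Met E M), 0 < ε ∧ ε < ε₀ ∧
      Biconformal E₁ g g' pr (fun _ => 1) (fun _ => ε) ∧ ConfPSC g') :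
    ∃ (ψ : M → ℝ) (g₁ g' : Met E M) (gB : Met E₁ B) (ε : ℝ), Sm E ψ ∧ IsConf ψ g g₁ ∧ 0 < ε ∧
      RiemSub g₁ gB pr ∧ Biconformal E₁ g₁ g' pr (fun _ => 1) (fun _ => ε) ∧ ConfPSC g' ∧
      RicciFlatFibres E₂ g₁ pr := by
  let _ : MeasurableSpace E₂ := borel E₂
  have : BorelSpace E₂ := ⟨rfl⟩
  let _ : MeasurableSpace F := borel F
  have : BorelSpace F := ⟨rfl⟩
  obtain ⟨gB₀⟩ := nonempty_met E₁ B
  obtain ⟨ψ, hψ, hψv⟩ := exists_horVol (E₂ := E₂) hd hd₁ hpr.1 g gB₀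
  obtain ⟨g₁, hg₁⟩ := exists_conf g hψ
  have hv : HorVol E₂ g₁ gB₀ pr := hψv g₁ hg₁
  have hseq₁ : ∀ ε₀ : ℝ, 0 < ε₀ → ∃ (ε : ℝ) (g' : Met E M), 0 < ε ∧ ε < ε₀ ∧
      Biconformal E₁ g₁ g' pr (fun _ => 1) (fun _ => ε) ∧ ConfPSC g' := by
    intro ε₀ hε₀
    obtain ⟨ε, g', h1, h2, h3, h4⟩ := hseq ε₀ hε₀
    obtain ⟨g'', hg''⟩ := exists_conf g' hψ
    exact ⟨ε, g'', h1, h2, biconf_conf hg₁ hg'' h3, ConfPSC.of_conf hψ hg'' h4⟩
  have hfib : ∀ {U : Set B} {Φ : B × F → M}, Triv E E₁ E₂ pr U Φ → ∀ {x : B}, x ∈ U →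
      ∀ {h : Met E₂ F}, IsFib g₁ Φ x h → (∀ y, Scal h y = 0) ∧
        ∀ (y : F) (w : E₂) (i j), fderiv ℝ (fun p => hm g₁ (psi E₁ E₂ Φ x y) p i j)
          (pt E₁ E₂ x y x y) (0, w) = 0 := by
    intro U Φ hΦ x hx h hh
    obtain ⟨ν, hν⟩ := exists_rvol h
    obtain ⟨q, hq, hq0, hform, hqz⟩ := limit_form hd hn hd₁ hd₂ hpr hv hseq₁ hΦ hx hh hν
    have hr := rigid hd₂ hν hF hn (by omega) hq hq0 hform
    exact ⟨fun y => (hr y).2, fun y w i j => hqz y (hr y).1 w i j⟩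
  obtain ⟨gB, hgB⟩ := exists_riemSub hd hpr (g := g₁) fun U Φ hΦ x hx y w i j => by
    obtain ⟨h, hh⟩ := exists_isFib hΦ g₁ hx
    exact (hfib hΦ hx hh).2 y w i j
  obtain ⟨ε, g', h1, -, h3, h4⟩ := hseq₁ 1 one_pos
  refine ⟨ψ, g₁, g', gB, ε, hψ, hg₁, h1, hgB, h3, h4, ?_⟩
  intro σ y hσ hinj hb
  rcases Nat.lt_or_ge (finrank ℝ E₂) 2 with hd₂' | hd₂'
  · exact ric_dim_one (by omega) _ _
  obtain ⟨U, Φ, hbU, hΦ⟩ := hpr.2 (pr (σ y))
  obtain ⟨h, hh⟩ := exists_isFib hΦ g₁ hbU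
  obtain ⟨τ, hτ, hcf⟩ := exists_fib_param hΦ hbU hh hσ hinj hb
  have h5 := ricci_flat hd₂' (fun y => (hfib hΦ hbU hh).1 y) hF hτ
  rw [← h5]
  exact ric_congr hcf

theorem einstein_of_flat {pr : M → B} {g : Met E M} (h : RicciFlatFibres E₂ g pr) :
    EinsteinFibres E₂ g pr := by
  intro b
  refine ⟨0, le_rfl, fun σ y hσ hinj hb => ?_⟩
  rw [zero_smul]
  refine h σ y hσ hinj ?_
  rw [hb.self_of_nhds]
  exact hb

/-- The collapse theorem. -/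
theorem collapse [CompactSpace M] [T2Space M] [CompactSpace B] [T2Space B]
    [ConnectedSpace B] [CompactSpace F] [T2Space F] [ConnectedSpace F] [Nonempty M]
    (hd : finrank ℝ E = finrank ℝ E₁ + finrank ℝ E₂) (hd₁ : 0 < finrank ℝ E₁)
    (hd₂ : 0 < finrank ℝ E₂) {pr : M → B} (hpr : IsFibreBundle E E₁ E₂ F pr)
    (hF : ∀ h : Met E₂ F, ¬ PosScal h) (g : Met E M) :
    (∃ ε₀ : ℝ, 0 < ε₀ ∧ ∀ ε : ℝ, 0 < ε → ε < ε₀ →
      (∃ g' : Met E M, Biconformal E₁ g g' pr (fun _ => 1) (fun _ => ε)) ∧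
      ∀ g' : Met E M, Biconformal E₁ g g' pr (fun _ => 1) (fun _ => ε) → ¬ ConfPSC g') ∨
    ∃ (ψ : M → ℝ) (g₁ : Met E M) (gB : Met E₁ B), Sm E ψ ∧ IsConf ψ g g₁ ∧
      RiemSub g₁ gB pr ∧ RicciFlatFibres E₂ g₁ pr ∧ ConfPSC gB := by
  by_contra hcon
  obtain ⟨hcon, hcon'⟩ := not_or.1 hcon
  push Not at hcon
  have hseq : ∀ ε₀ : ℝ, 0 < ε₀ → ∃ (ε : ℝ) (g' : Met E M), 0 < ε ∧ ε < ε₀ ∧
      Biconformal E₁ g g' pr (fun _ => 1) (fun _ => ε) ∧ ConfPSC g' := by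
    intro ε₀ hε₀
    obtain ⟨ε, h1, h2, h3⟩ := hcon ε₀ hε₀
    obtain ⟨g', h4, h5⟩ := h3 (exists_biconf hpr.1 g h1)
    exact ⟨ε, g', h1, h2, h4, h5⟩
  rcases lt_or_ge (finrank ℝ E) 3 with hn | hn
  · obtain ⟨gB⟩ := nonempty_met E₁ B
    obtain ⟨ε, g', -, -, -, h⟩ := hseq 1 one_pos
    exact not_conf_one (by omega) gB (conf_line (by omega) hd₁ hpr.1
      (horConf_of_line (by omega) hpr.1 g' gB) h)
  · obtain ⟨ψ, g₁, g', gB, ε, hψ, hg₁, hε, h1, h2, h3, h4⟩ := exists_limit hd hd₁ hd₂ hn hF hpr hseq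
    refine hcon' ⟨ψ, g₁, gB, hψ, hg₁, h1, h4, ?_⟩
    rcases Nat.lt_or_ge (finrank ℝ E₂) 2 with h5 | h5
    · exact conf_line (by omega) hd₁ hpr.1 (horConf_of_riemSub (riemSub_of_biconf h1 h2)) h3
    · exact conf_of_einstein hd hd₁ hd₂ hn hpr (riemSub_of_biconf h1 h2)
        (einstein_of_biconf h1 (einstein_of_flat h4) hε h2) h3

end Pool.Agent.Lib.MP_df705a_gt.Coll
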